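import Pool.Agent.Helper65.LZ.Defs
import Pool.Agent.Helper65.LZ.Proof

set_option autoImplicit false

open Pool.Agent.Helper65.LZ

namespace Pool.Agent.Results.MP_37e11d_lc.QuadraticBound

/-- The self-referencing LZ77 size is quadratically bounded under passing to any factor `T` of the
string `S`, over any alphabet. In particular (second part) there is a constant `c ≥ 1` with
`zs (S[i..]) ≤ c * zs S ^ c` for all strings `S` and all suffixes `S[i..]` of `S`. -/
theorem result :
    (∀ (α : Type*) (S T : List α), T <:+: S → zs T ≤ 10 * zs S ^ 2) ∧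
    ∃ c : ℕ, 1 ≤ c ∧ ∀ (α : Type) (S : List α) (i : ℕ), i < S.length →
      zs (S.drop i) ≤ c * zs S ^ c := by
  refine ⟨fun α S T h => zs_infix h, 10, by norm_num, fun α S i hi => ?_⟩
  refine (zs_infix (List.drop_suffix i S).isInfix).trans ?_
  have h1 : 0 < zs S := by
    unfold zs
    rw [zsFrom_of_lt (by omega)]
    omega
  exact Nat.mul_le_mul_left _ (Nat.pow_le_pow_right h1 (by norm_num))

end Pool.Agent.Results.MP_37e11d_lc.QuadraticBound
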